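import Pool.Agent.Q33.FP.Tfae

set_option autoImplicit false

/-!
# The Lang-Vojta conjecture for affine curves: maps with few units to arbitrary affine varieties

`k` is an algebraically closed field of characteristic zero, `U` a closed subset of the affine
`n`-space over `k`. An affine curve is given by its function field `K` and the finite set `S` of its
places at infinity; `canDeg k K` is `2 g - 2`, so `canDeg k K + S.card` is the `χ` of the problem. A
map from the curve to `U` is a point `x` of `U` over `K` with coordinates regular outside `S`, its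
degree is the height `aht k x` of the point `(1 : x)`.

The complexity of the map is the number `r` of units of the affine curve (functions without zeros and
poles outside `S`) needed to write the coordinates: `UnitPt r S x` says that the coordinates of `x` are
linear combinations with constant coefficients of `r` units.

(1), (2), (3): for all `r` and `d` there is ONE constant `A` such that, for all `k`, `n` and all `U`
given by (any number of) polynomials of degree at most `d`, and for all points `x = ∑ u j v j` of `U`
over all `K`, where the orders of the `u j` outside `S` are multiples of a number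
`M ≥ (C(r + d, d) - 1) ^ 2` (for instance units) and the `v j` are vectors over `K`:
`aht x ≤ A (max (2 g - 2 + s) 0 + aht v)`, except that
(1) if `U` is arbitrary then `x` can be on a nonconstant image of a punctured line in `U` of the form
`t ↦ ∑ t ^ (w j) u j v j`,
(2) if `U` is irreducible and not dominated by punctured lines, then `x` can be in a fixed proper
closed subset of `U`, which depends only on `U` and `r`,
(3) there is no exception if `U` contains no nonconstant image of the punctured line.

(4), (5): conversely the bound characterises these varieties. For irreducible `U` it is equivalent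
that `U` is not dominated by punctured lines, that for every `r` the degrees of the maps with `r`
units are at most `A max (2 g - 2 + s) 0` outside a proper closed subset, and that for every `r` they
are bounded, outside a proper closed subset, on a single affine curve with nonconstant units. Without
exceptional sets the same conditions are equivalent to the absence of punctured lines in `U`.

The varieties of log general type are not dominated by punctured lines; `U` can be singular here and
its logarithmic Kodaira dimension is not restricted.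
-/

namespace Pool.Agent.Results.MP_70ba79_ag.FewUnitMaps

open FF MvPolynomial Pool.Agent.W603.LV Pool.Agent.Q33.FP
open Pool.Agent.Y215.AF (GmUniruled exists_hyperA)

/-- The height inequality with the constant `A` for the points `∑ u j v j` of `U`, except for the
points with the property `E`; the orders of the `u j` outside `S` are multiples of some
`M ≥ (C(r + d, d) - 1) ^ 2`. -/
def Inequality {k : Type} [Field k] {n : ℕ} (U : Set (MvPolynomial (Fin n) k)) (r d A : ℕ)
    (E : ∀ (K : Type) [Field K] [Algebra k K], (Fin r → Fin n → K) → (Fin r → K) → Prop) : Prop :=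
  ∀ (K : Type) [Field K] [Algebra k K] [IsFF k K] (S : Finset (Place k K)) (M : ℕ)
    (v : Fin r → Fin n → K) (u : Fin r → K), 0 < M → ((r + d).choose d - 1) ^ 2 ≤ M →
    Units S M u → (∀ f ∈ U, aeval (fun i => ∑ j, v j i * u j) f = 0) →
    E K v u ∨ aht k (fun i => ∑ j, v j i * u j) ≤
      A * (max (canDeg k K + S.card) 0 + aht k (fun p : Fin r × Fin n => v p.1 p.2))

/-- The affine curve with the places `S` at infinity has a nonconstant unit. -/
def HasUnit {k K : Type} [Field k] [Field K] [Algebra k K] (S : Finset (Place k K)) : Prop :=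
  ∃ g : K, Transcendental k g ∧ ∀ P ∉ S, P.ord g = 0

/-- The degrees of the maps with `r` units from all affine curves to `U` are at most
`A max (2 g - 2 + s) 0`, outside `G = 0`. -/
def LinearBound {k : Type} [Field k] {n : ℕ} (U : Set (MvPolynomial (Fin n) k)) (r A : ℕ)
    (G : MvPolynomial (Fin n) k) : Prop :=
  ∀ (K : Type) [Field K] [Algebra k K] [IsFF k K] (S : Finset (Place k K)) (x : Fin n → K),
    UnitPt r S x → (∀ f ∈ U, aeval x f = 0) → aeval x G ≠ 0 →
      aht k x ≤ A * max (canDeg k K + S.card) 0

/-- The degrees of the maps with `r` units from some affine curve with nonconstant units to `U` are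
bounded, outside `G = 0`. -/
def BoundedOnce {k : Type} [Field k] {n : ℕ} (U : Set (MvPolynomial (Fin n) k)) (r : ℕ)
    (G : MvPolynomial (Fin n) k) : Prop :=
  ∃ (K : Type) (_ : Field K) (_ : Algebra k K) (_ : IsFF k K) (S : Finset (Place k K)) (B : ℕ),
    HasUnit S ∧ ∀ x : Fin n → K, UnitPt r S x → (∀ f ∈ U, aeval x f = 0) → aeval x G ≠ 0 →
      aht k x ≤ B

section

variable {k : Type} [Field k] [CharZero k] [IsAlgClosed k] {n : ℕ}

omit [CharZero k] [IsAlgClosed k] in
/-- from the inequality to the bound for maps with few units -/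
theorem linear_of {U : Set (MvPolynomial (Fin n) k)} {r d A : ℕ} {G : MvPolynomial (Fin n) k}
    (h : Inequality U r d A (fun _ _ _ v u => aeval (fun i => ∑ j, v j i * u j) G = 0)) :
    LinearBound U r A G := by
  intro K _ _ _ S x hx hU hG
  obtain ⟨c, u, hu, hxe⟩ := hx
  have hxe' : x = fun i => ∑ j, algebraMap k K (c j i) * u j := funext hxe
  rcases h K S (((r + d).choose d - 1) ^ 2 + 1) (fun j i => algebraMap k K (c j i)) u
      (Nat.succ_pos _) (Nat.le_succ _) ⟨fun j => (hu j).1, fun P hP j => by
    rw [(hu j).2 P hP]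
    exact dvd_zero _⟩ (by rw [← hxe']; exact hU) with h1 | h1
  · rw [← hxe'] at h1
    exact absurd h1 hG
  · have h2 := aht_const (K := K) (fun p : Fin r × Fin n => c p.1 p.2)
    rw [h2, add_zero, ← hxe'] at h1
    exact h1

omit [IsAlgClosed k] in
/-- a bound on one curve -/
theorem once_of {U : Set (MvPolynomial (Fin n) k)} {r A : ℕ} {G : MvPolynomial (Fin n) k}
    (h : LinearBound U r A G) : BoundedOnce U r G := by
  classical
  have : IsFF k (RatFunc k) := isFF_line k
  obtain ⟨g, hg⟩ := IsFF.exists_transcendental (k := k) (K := RatFunc k)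
  let S : Finset (Place k (RatFunc k)) := (ord_supp (k := k) g).toFinset
  refine ⟨RatFunc k, inferInstance, inferInstance, inferInstance, S,
    (A * max (canDeg k (RatFunc k) + S.card) 0).toNat, ⟨g, hg, fun P hP => ?_⟩,
    fun x hx hU hG => ?_⟩
  · by_contra hne
    exact hP ((Set.Finite.mem_toFinset _).2 hne)
  · exact (h (RatFunc k) S x hx hU hG).trans (Int.self_le_toNat _)

end

/-- an upper bound for the degrees of the polynomials in `U` -/
def DegLe {k : Type} [Field k] {n : ℕ} (U : Set (MvPolynomial (Fin n) k)) (d : ℕ) : Prop :=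
  ∀ f ∈ U, f.totalDegree ≤ d

theorem part1 (r d : ℕ) (hd : 1 ≤ d) : ∃ A : ℕ, ∀ (k : Type) [Field k] [IsAlgClosed k]
    [CharZero k] (n : ℕ) (U : Set (MvPolynomial (Fin n) k)), DegLe U d →
      Inequality U r d A (fun _ _ _ v u => OnGm U v u) ∧
      ((Ideal.span U).IsPrime → ¬ GmUniruled (Ideal.span U) →
        ∃ G : MvPolynomial (Fin n) k, G ∉ Ideal.span U ∧
          Inequality U r d A (fun _ _ _ v u => aeval (fun i => ∑ j, v j i * u j) G = 0)) ∧
      (NoGm U → Inequality U r d A (fun _ _ _ _ _ => False)) := by
  obtain ⟨A, hA⟩ := aff_main r d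
  refine ⟨A, ?_⟩
  intro k _ _ _ n U hU
  have key : ∀ (K : Type) [Field K] [Algebra k K] [IsFF k K] (S : Finset (Place k K)) (M : ℕ)
      (v : Fin r → Fin n → K) (u : Fin r → K), 0 < M → ((r + d).choose d - 1) ^ 2 ≤ M →
      Units S M u → (∀ f ∈ U, aeval (fun i => ∑ j, v j i * u j) f = 0) →
      (OnGm U v u ∧ ∀ G : MvPolynomial (Fin n) k, (∀ (L : Type) [Field L] [Algebra k L]
        (c : Fin r → Fin n → L) (l : Fin (r + 1) → ℕ),
          (∀ f ∈ U, aeval (Pool.Agent.H533R3.SL.cur (Pool.Agent.Y215.AF.homC c) l)
            (Pool.Agent.W235.RM.hmg d f) = 0) → NC (Pool.Agent.Y215.AF.homC c) l →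
          aeval (fun i => ∑ j, c j i) G = 0) → aeval (fun i => ∑ j, v j i * u j) G = 0) ∨
      aht k (fun i => ∑ j, v j i * u j) ≤ A * (max (canDeg k K + S.card) 0 +
        aht k fun p : Fin r × Fin n => v p.1 p.2) := by
    intro K _ _ _ S M v u hM0 hM hu hx
    have hM' : modF (r + 1) d ≤ M := by
      unfold modF
      rw [show r + 1 + d - 1 = r + d by omega]
      exact hM
    rcases hA (k := k) (κ := k) (K := K) U hU le_rfl (fun f _ => (cht_const f).le) v u S hM0 hM'
      hu hx with h1 | h1
    · exact Or.inl h1
    · right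
      rw [add_zero] at h1
      exact h1
  refine ⟨fun K _ _ _ S M v u hM0 hM hu hx => ?_, fun hp hnu => ?_,
    fun hno K _ _ _ S M v u hM0 hM hu hx => ?_⟩
  · rcases key K S M v u hM0 hM hu hx with h1 | h1
    · exact Or.inl h1.1
    · exact Or.inr h1
  · obtain ⟨G, hG1, hG2⟩ := exists_hyperA U hp hnu d hd hU r
    refine ⟨G, hG1, fun K _ _ _ S M v u hM0 hM hu hx => ?_⟩
    rcases key K S M v u hM0 hM hu hx with h1 | h1
    · exact Or.inl (h1.2 G fun L _ _ c l hz hc => hG2 L c l hz hc)
    · exact Or.inr h1
  · rcases key K S M v u hM0 hM hu hx with h1 | h1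
    · exfalso
      have h2 := h1.2 1 fun L _ _ c l hz hc => absurd hc (noGm_ext d hU hno c l hz)
      rw [map_one] at h2
      exact one_ne_zero h2
    · exact Or.inr h1

theorem result :
    -- the inequality with uniform constants
    (∀ r d : ℕ, 1 ≤ d → ∃ A : ℕ, ∀ (k : Type) [Field k] [IsAlgClosed k] [CharZero k] (n : ℕ)
      (U : Set (MvPolynomial (Fin n) k)), DegLe U d →
      -- (1)
      Inequality U r d A (fun _ _ _ v u => OnGm U v u) ∧
      -- (2)
      ((Ideal.span U).IsPrime → ¬ GmUniruled (Ideal.span U) →
        ∃ G : MvPolynomial (Fin n) k, G ∉ Ideal.span U ∧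
          Inequality U r d A (fun _ _ _ v u => aeval (fun i => ∑ j, v j i * u j) G = 0)) ∧
      -- (3)
      (NoGm U → Inequality U r d A (fun _ _ _ _ _ => False))) ∧
    (∀ (k : Type) [Field k] [IsAlgClosed k] [CharZero k] (n d : ℕ)
      (U : Set (MvPolynomial (Fin n) k)), DegLe U d →
      -- (4)
      ((Ideal.span U).IsPrime → List.TFAE [¬ GmUniruled (Ideal.span U),
        ∀ r, ∃ A : ℕ, ∃ G : MvPolynomial (Fin n) k, G ∉ Ideal.span U ∧ LinearBound U r A G,
        ∀ r, ∃ G : MvPolynomial (Fin n) k, G ∉ Ideal.span U ∧ BoundedOnce U r G]) ∧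
      -- (5)
      List.TFAE [NoGm U, ∀ r, ∃ A : ℕ, LinearBound U r A 1, ∀ r, BoundedOnce U r 1]) := by
  refine ⟨part1, ?_⟩
  intro k _ _ _ n d0 U hU0
  obtain ⟨d, hd, hU⟩ : ∃ d, 1 ≤ d ∧ DegLe U d := ⟨max d0 1, le_max_right _ _, fun f hf =>
    (hU0 f hf).trans (le_max_left _ _)⟩
  constructor
  · intro hp
    tfae_have 1 → 2 := by
      intro hnu r
      obtain ⟨A, hA⟩ := part1 r d hd
      obtain ⟨G, hG1, hG2⟩ := (hA k n U hU).2.1 hp hnu
      exact ⟨A, G, hG1, linear_of hG2⟩
    tfae_have 2 → 3 := by
      intro h r
      obtain ⟨A, G, hG1, hG2⟩ := h r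
      exact ⟨G, hG1, once_of hG2⟩
    tfae_have 3 → 1 := by
      intro h hgm
      obtain ⟨r, w, hr⟩ := gmUniruled_base d hU hgm
      obtain ⟨G, hG1, K, _, _, _, S, B, ⟨g, hg, hgS⟩, hB⟩ := h r
      obtain ⟨b, h1, h2, h3⟩ := hr G hG1
      obtain ⟨x, hx1, hx2, hx3, hx4⟩ := big_aff (K := K) d hU h1 h2 h3 hg hgS B
      exact absurd (hB x hx1 hx2 hx3) (not_le.2 hx4)
    tfae_finish
  · tfae_have 1 → 2 := by
      intro hno r
      obtain ⟨A, hA⟩ := part1 r d hd
      have h1 := (hA k n U hU).2.2 hno
      refine ⟨A, linear_of (d := d) fun K _ _ _ S M v u hM0 hM hu hx => ?_⟩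
      rcases h1 K S M v u hM0 hM hu hx with h2 | h2
      · exact absurd h2 id
      · exact Or.inr h2
    tfae_have 2 → 3 := by
      intro h r
      obtain ⟨A, hA⟩ := h r
      exact once_of hA
    tfae_have 3 → 1 := by
      intro h
      by_contra hgm
      obtain ⟨r, w, b, h1, h2⟩ := cur_of_not_noGm d hU hgm
      obtain ⟨K, _, _, _, S, B, ⟨g, hg, hgS⟩, hB⟩ := h r
      have h3 : aeval (fun i => ∑ j, b j i) (1 : MvPolynomial (Fin n) k) ≠ 0 := by
        rw [map_one]
        exact one_ne_zero
      obtain ⟨x, hx1, hx2, hx3, hx4⟩ := big_aff (K := K) d hU h1 h2 h3 hg hgS B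
      exact absurd (hB x hx1 hx2 hx3) (not_le.2 hx4)
    tfae_finish

end Pool.Agent.Results.MP_70ba79_ag.FewUnitMaps
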