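import Pool.Agent.Q41.GT.Carry

/-!
# Degrees of curves in varieties whose function field carries a map with many preperiodic points

`k` is an algebraically closed field of characteristic zero and `Y` a projective variety over `k` of
dimension `w ≥ 1`, given by its function field `L` (of transcendence degree `w` over `k`) and its
generic point `x`, the homogeneous coordinates, elements of `L` whose ratios generate `L` over `k`
(`coords k x = ⊤`).

`Carries k d B p q`: `f = p / q` is a rational map of the projective line over `L`, of degree `d`, i.e.
an algebraic family of rational maps of degree `d` over an open subset of `Y`; `f` has at least `B`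
preperiodic points with coordinates in `L` (points whose orbit is finite), among them `∞`, `0` and `1`
(every `f` with three preperiodic points in `P^1(L)` is conjugate to such a map), and the variation
is maximal: `L` is algebraic over the field generated over `k` by the coefficients of `f`.
`ratP1 p q d` is the map `f` on `P^1(L) = L ∪ {∞}` (`Option L`).

`GeneralType k L w`: `Y` is of general type (for some `N > 0` there are `N`-canonical forms of the
function field which are regular at all prime divisors of all models, with `w` algebraically
independent ratios).

`CurveBound k x`: there are a proper closed subset `G = 0` of `Y` and a number `A` such that for all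
smooth projective curves `C` (with function field `F`, genus `g`, `canDeg k F = 2 g - 2`) and all
morphisms `u : C → Y` (points `f` of `Y` with coordinates in `F`) whose image is not contained in
`G = 0` the degree of `u` (`pht k f`) is at most `A * max (2 g - 2) 0`.

Theorem: for every `d ≥ 2` there is `B` such that this is true for all such `Y`, over all `k`, of all
dimensions. If `D` is any closed subset of `Y` and `X = Y - D` is affine then a morphism from an affine
curve `C - S`, `S` with `s` points, to `X` extends to `C → Y`, and `2 g - 2 ≤ 2 g - 2 + s`. So the
conclusion of the Lang-Vojta conjecture holds for all these `X`, with a bounding function which is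
linear and depends on the genus alone: the points of the curve over `D` need not be counted.
-/

set_option autoImplicit false

namespace Pool.Agent.Results.MP_70ba79_ag.ManyPreperiodicPoints

open Polynomial Pool.Agent.W602.GT Pool.Agent.Y216 Pool.Agent.Q41.GT

/-- See the explanation at the beginning of the file. -/
theorem result (d : ℕ) (hd : 2 ≤ d) : ∃ B : ℕ, ∀ (k L : Type) [Field k] [IsAlgClosed k]
    [CharZero k] [Field L] [Algebra k L] (w : ℕ), 1 ≤ w → Algebra.trdeg k L = w →
    ∀ p q : L[X], Carries k d B p q → ∀ (M : ℕ) (x : Fin (M + 1) → L), x ≠ 0 → coords k x = ⊤ →
    GeneralType k L w ∧ CurveBound k x := by
  obtain ⟨B, hB⟩ := Carries.dyn d hd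
  refine ⟨B, ?_⟩
  intro k L _ _ _ _ _ w hw htr p q h M x hx hcx
  have h1 := hB k L w hw htr p q h M x hx hcx
  exact ⟨h1.1, h1.2.2⟩

end Pool.Agent.Results.MP_70ba79_ag.ManyPreperiodicPoints
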