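import Pool.Agent.Q186.RU.Main

/-!
# The Lang-Vojta conjecture for affine curves: uniform linear bounds for all quasi-projective varieties over an orbifold pair of log general type

`IsOrbPair d a f e Q` (`Pool/Agent/Q186/RU/Orb.lean`): `X` is a complex projective variety of
dimension `d`, with function field `K` and generic point `a` (homogeneous coordinates in `K`), and
`f 0, …, f n` are forms of degree `e` which do not vanish on `X` and define a generically finite
rational map from `X` onto some closed subvariety (any subvariety) of projective `n`-space. `Q` is a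
polynomial, `Q (1, f 1 / f 0, …, f n / f 0) ≠ 0` on `X`. `X` is of log general type for the boundary
which consists of the prime divisors (on all models) at which some `f i / f 0` is not a unit (the
toric boundary) or at which the function `Q (1, f 1 / f 0, …)` vanishes to the first order.

`OrbContact m Q v P`: at the place `P` either two of the orders of the functions `v i` differ by at
least `m` (contact of order at least `m` with the toric boundary), or these orders are all equal (no
contact with the toric boundary) and the order of `Q (1, v 1 / v 0, …)` is not one (no contact of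
order one with the hypersurface `Q = 0`).

The varieties are `U = Y - D` with closed subsets `Y`, `D` of the product of two projective spaces
(`BiSet`), with the second projection `p` as a morphism from `U` to `X` (`LiesOver`); every
quasi-projective variety with a morphism to `X` is of this form. `OrbOver Y D f m Q`: all arcs with
centre in `U` (points `(u, v)` over fields with a discrete valuation `P`, with `f i (v) ≠ 0`) have
orbifold contact, `OrbContact m Q (f (v)) P`. For `Q = 1` this means that `p` is ramified to order at
least `m` over the boundary, in general it is moreover ramified (to order at least two) over `Q = 0`.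

An affine curve is given by its function field `L` and the finite set `S` of its places at infinity;
`canDeg L + S.card` is `2 g - 2 + s`. A morphism `h` from the curve to `U` is given by a point `(u, v)`
of `Y` over `L` such that the places outside `S` do not have their centre in `D`; `pht v` is the degree
of `p h`, and `pht u + pht v` that of `h` in the product.
-/

set_option autoImplicit false

namespace Pool.Agent.Results.MP_70ba79_ag.OrbifoldBases

open MvPolynomial FF Pool.Agent.W603.LV Pool.Agent.W603.PV Pool.Agent.Q271.RC
open Pool.Agent.Q186.RU Pool.Agent.W602.Cov.R Pool.Agent.TH152.HY Pool.Agent.TH152.DS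
open Pool.Agent.W602.GT (LogGeneralType)

/-- **Theorem.** There are numbers `m`, `A` and a form `B`, not vanishing on `X`, such that:

(1) (height inequality with orbifold counting) for all nonconstant maps `v` from complete curves to
`X`, with image not in `B = 0`, and all finite sets `S` of points which contain the points where `v`
does not have orbifold contact: `deg v ≤ A (2 g - 2 + |S|)`;

(2) for ALL quasi-projective varieties `U = Y - D` with a morphism `p` to `X` (of any dimension) all
of whose arcs have orbifold contact:

(2a) for every morphism `h` from an affine curve to `U` such that `p h` is not constant and not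
contained in `B = 0`: `deg (p h) ≤ A (2 g - 2 + s)`; the constant `A` and the exceptional set do not
depend on `U`;

(2b) if `U` is irreducible, `p` is generically finite onto its image and this image is not contained
in `B = 0`, then there are a proper closed subset `G = 0` of `U` and a number `R` such that
`deg (p h) ≤ A (2 g - 2 + s)` and `deg h ≤ R (2 g - 2 + s)` for all nonconstant morphisms `h` from
affine curves to `U` which are not contained in `G = 0`;

(2c) if `U` is irreducible, and `p` is generically finite and dominant, then (2b) applies and `U` is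
of log general type of dimension `d`. -/
theorem result {N n d : ℕ} (hd : 0 < d) (K : Type) [Field K] [Algebra ℂ K] (a : Fin (N + 1) → K)
    (f : Fin (n + 1) → MvPolynomial (Fin (N + 1)) ℂ) (e : ℕ) (Q : MvPolynomial (Fin (n + 1)) ℂ)
    (hX : IsOrbPair d a f e Q) :
    ∃ (m A : ℕ) (B : MvPolynomial (Fin (N + 1)) ℂ) (E : ℕ), B.IsHomogeneous E ∧ aeval a B ≠ 0 ∧
      (∀ (L : Type) [Field L] [Algebra ℂ L] [IsFF ℂ L] (S : Finset (Place ℂ L))
        (v : Fin (N + 1) → L), IsPoint a v → Nonconst v → aeval v B ≠ 0 →
        (∀ P : Place ℂ L, P ∉ S → OrbContact m Q (fun i => aeval v (f i)) P) →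
        pht ℂ v ≤ A * (canDeg ℂ L + S.card)) ∧
      ∀ (N' : ℕ) (Y D : BiSet N' N), LiesOver a Y D → OrbOver Y D f m Q →
        (∀ (L : Type) [Field L] [Algebra ℂ L] [IsFF ℂ L] (S : Finset (Place ℂ L))
          (u : Fin (N' + 1) → L) (v : Fin (N + 1) → L), Y.Mem u v →
          (∀ P : Place ℂ L, P ∉ S → ¬ CentreIn D u v P) → Nonconst v → aeval v B ≠ 0 →
          pht ℂ v ≤ A * (canDeg ℂ L + S.card)) ∧
        ∀ (K' : Type) [Field K'] [Algebra ℂ K'] (a' : Fin (N' + 1) → K') (b' : Fin (N + 1) → K'),
          Y.FunctionField K' a' b' → ¬ D.Mem a' b' →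
          Algebra.IsAlgebraic
            (IntermediateField.adjoin ℂ {g : K' | ∃ i j, b' j ≠ 0 ∧ g = b' i / b' j}) K' →
          (aeval b' B ≠ 0 → ∃ (G : BiPoly N' N) (E1 E2 : ℕ), BiHom G E1 E2 ∧
            (∃ u v, QMem Y D u v ∧ eval (Sum.elim u v) G ≠ 0) ∧
            ∃ R : ℕ, CurvesBounded Y D G A R) ∧
          ∀ σ : K →ₐ[ℂ] K', (∀ i j, σ (a i) * b' j = σ (a j) * b' i) →
            aeval b' B ≠ 0 ∧ LogGeneralType ℂ K' d (CentreIn D a' b') := by
  obtain ⟨B, E, A, m1, hB, hBa, hmain⟩ := pair_linear hX
  obtain ⟨m2, hlgt⟩ := cover_lgt hd hX
  refine ⟨m1 + m2, A, B, E, hB, hBa, ?_, ?_⟩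
  · intro L _ _ _ S v hv hne hBv hS
    have hv0 : ∃ j, v j ≠ 0 := by
      obtain ⟨i, j, hj, -⟩ := hne
      exact ⟨j, hj⟩
    exact (hmain (m1 + m2) (by omega) L v hv hBv hv0).2 S hS hne
  intro N' Y D hlies horb
  refine ⟨?_, ?_⟩
  · intro L _ _ _ S u v hm hS hne hBv
    have hv0 : ∃ j, v j ≠ 0 := by
      obtain ⟨i, j, hj, -⟩ := hne
      exact ⟨j, hj⟩
    obtain ⟨P0, hP0⟩ := exists_place_not_mem (k := ℂ) (K := L) S
    have hDuv : ¬ D.Mem u v := fun h => hS P0 hP0 (centre_of_mem h P0)
    obtain ⟨h1, h2⟩ := hmain (m1 + m2) (by omega) L v (pt_of_lies hlies hm hDuv) hBv hv0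
    exact h2 S (fun P hP => horb L u v hm h1 P (hS P hP)) hne
  · intro K' _ _ a' b' hK hD halg
    refine ⟨fun hBb => bounded hB (hmain (m1 + m2) (by omega)) hlies horb hK hD halg hBb, ?_⟩
    intro σ hσ
    refine ⟨?_, hlgt (m1 + m2) (by omega) N' Y D horb K' a' b' hK halg σ hσ⟩
    obtain ⟨t, ht, hbt⟩ := prop_of hK.mem.2.1 hX.gen.1 σ hσ
    have h1 : b' = fun j => t * σ (a j) := funext hbt
    have h2 : aeval b' B = aeval (fun j => t * σ (a j)) B := by rw [← h1]
    rw [h2, Pool.Agent.Y192.OG.aeval_scale hB, aeval_map_hom]
    exact mul_ne_zero (pow_ne_zero _ ht) ((map_ne_zero σ).2 hBa)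

end Pool.Agent.Results.MP_70ba79_ag.OrbifoldBases
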