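import Pool.Agent.Q72.NA.Lin

/-!
# The Lang-Vojta conjecture for affine curves, for varieties of log general type which are finite over subvarieties of tori

`X` is an irreducible complex projective variety in projective `N`-space with the function field `K`
and the generic point `a` (the homogeneous coordinates are elements of `K`, and their ratios
generate `K`), and `f 0, …, f n` are forms of the same degree which do not vanish on `X`, such that
all rational functions on `X` are algebraic over the field generated by the ratios `f i / f 0`: the
rational map `(f 0 : … : f n)` from `X` to projective `n`-space is generically finite onto its image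
(which can be any subvariety). The boundary consists of the prime divisors (on all models) at which
one of the ratios `f i / f 0` is not a unit. If the forms have no common zero on `X`, then this is
the boundary of the affine variety `X° = X - {f 0 * ... * f n = 0}`; every normal variety `X°` with a
finite morphism to a torus (onto any closed subvariety) has this form, and also, for instance, the
complement in `X = P^N` of hypersurfaces without common point, one more than the dimension. `LogGeneralType ℂ K d Bd` says that `d` is the dimension, and that for some `m > 0` there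
are `d + 1` forms in the `m`-th power of the canonical bundle, regular at all prime divisors outside
`Bd` and with at most logarithmic poles at the divisors in `Bd`, whose ratios generate a field of
transcendence degree `d`.

Theorem: if the variety is of log general type then there are a proper closed subset `B = 0` and a
constant `A` such that, for all smooth curves (given by the function field `L` and the finite set `S`
of the points at infinity) and all nonconstant maps `u` from the curve to `X` whose image is not in
`B = 0` and which map the points outside of `S` off the boundary (there the `f i (u)` have all the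
same order), the degree of `u` is at most `A * (2 g - 2 + |S|)`. So the function `β` in Lang-Vojta
is linear, and there are no such maps if `2 g - 2 + |S| ≤ 0`. As `S` can be the set of the points
where the curve meets the boundary, this is also the height inequality with truncated counting
function for all maps from complete curves to `X`.
-/

set_option autoImplicit false

namespace Pool.Agent.Results.MP_70ba79_ag.TorusCoverDegrees

open MvPolynomial FF Pool.Agent.W603.LV Pool.Agent.W603.PV Pool.Agent.W602.GT Pool.Agent.Q72.NA

/-- `u` is a point, over the field `L`, of the projective variety with the generic point `a`. -/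
def IsPoint {N : ℕ} {K : Type} [Field K] [Algebra ℂ K] (a : Fin (N + 1) → K) {L : Type} [Field L]
    [Algebra ℂ L] (u : Fin (N + 1) → L) : Prop :=
  ∀ (G : MvPolynomial (Fin (N + 1)) ℂ) (D : ℕ), G.IsHomogeneous D → aeval a G = 0 → aeval u G = 0

/-- See the explanation at the beginning of the file. -/
theorem result {N n d : ℕ} (K : Type) [Field K] [Algebra ℂ K] (a : Fin (N + 1) → K)
    (ha : ∃ j, a j ≠ 0)
    (hK : IntermediateField.adjoin ℂ {g : K | ∃ i j, a j ≠ 0 ∧ g = a i / a j} = ⊤)
    (f : Fin (n + 1) → MvPolynomial (Fin (N + 1)) ℂ) (e : ℕ) (hf : ∀ i, (f i).IsHomogeneous e)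
    (hf0 : ∀ i, aeval a (f i) ≠ 0)
    (halg : Algebra.IsAlgebraic
      (IntermediateField.adjoin ℂ (Set.range fun i => aeval a (f i) / aeval a (f 0))) K)
    (hlgt : LogGeneralType ℂ K d fun P => ∃ i, P.ord (aeval a (f i)) ≠ P.ord (aeval a (f 0))) :
    ∃ (B : MvPolynomial (Fin (N + 1)) ℂ) (E A : ℕ), B.IsHomogeneous E ∧ aeval a B ≠ 0 ∧
      ∀ (L : Type) [Field L] [Algebra ℂ L] [IsFF ℂ L] (S : Finset (Place ℂ L))
        (u : Fin (N + 1) → L), IsPoint a u → aeval u B ≠ 0 →
        (∀ P : Place ℂ L, P ∉ S → ∀ i, P.ord (aeval u (f i)) = P.ord (aeval u (f 0))) →
        (∃ i j, u j ≠ 0 ∧ Transcendental ℂ (u i / u j)) →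
        pht ℂ u ≤ A * (canDeg ℂ L + S.card) := by
  have : Algebra.EssFiniteType ℂ K := ess_of_adjoin hK
  let x : Fin (n + 1) → Kˣ := fun i =>
    Units.mk0 (aeval a (f i) / aeval a (f 0)) (div_ne_zero (hf0 i) (hf0 0))
  have hx : ∀ i, (x i : K) = aeval a (f i) / aeval a (f 0) := fun i => rfl
  have hBd : (fun P : Place ℂ K => ∃ i, P.ord (aeval a (f i)) ≠ P.ord (aeval a (f 0))) =
      fun P => ∃ i, P.ord (x i : K) ≠ 0 := by
    funext P
    simp only [hx, P.ord_div (hf0 _) (hf0 0), sub_ne_zero]
  rw [hBd] at hlgt
  obtain ⟨B, E, A, hB, hBa, hmain⟩ := coreF (F := ℂ) K a ha (fun g => ratF_of_adjoin hK g) x f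
    (fun _ => f 0) (fun _ => e) hf (fun _ => hf 0) (fun _ => hf0 0)
    (fun i => by rw [hx, div_mul_cancel₀ _ (hf0 0)]) (fun z => halg.isAlgebraic z) hlgt
  refine ⟨B, E, 5 * A, hB, hBa, ?_⟩
  intro L _ _ _ S u hu hBu hS hne
  have h1 := lin_of a f B A (fun M _ _ _ u hu hBu => by
    obtain ⟨h1, h2⟩ := hmain M u hu hBu
    exact ⟨fun i => (h1 i).1, h2⟩) L u hu hBu S hS hne
  exact h1

end Pool.Agent.Results.MP_70ba79_ag.TorusCoverDegrees
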